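import Pool.Agent.Helper38.DG.Bridge
import Pool.Agent.Helper14.SS.Main

/-!
# Digits of the number of models: conclusion
-/

set_option autoImplicit false

namespace Pool.Agent.Helper38.DG

open FirstOrder FirstOrder.Language Pool.Agent.Helper20.Spectra
open scoped Classical

theorem isRud_finite_mod {A B : Set ℕ} (hA : IsRudimentary A) (n₀ : ℕ)
    (h : ∀ n, n₀ ≤ n → (n ∈ A ↔ n ∈ B)) : IsRudimentary B := by
  refine isRudimentary_of ?_
  have h1 : RudX (fun x : Empty => x.elim) 1 (fun _ v => (n₀ ≤ v 0 ∧ v 0 ∈ A) ∨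
      ∃ c ∈ (Finset.range n₀).filter (fun c => c ∈ B), v 0 = c) :=
    ((RudX.le (Pool.Agent.Helper20.Spectra.IsPoly.const n₀) (Pool.Agent.Helper20.Spectra.IsPoly.var 0)).and' (RudX.mem hA (Pool.Agent.Helper20.Spectra.IsPoly.var 0))).or
      (RudX.ex_finset _ (fun c _ => RudX.eq (Pool.Agent.Helper20.Spectra.IsPoly.var 0) (Pool.Agent.Helper20.Spectra.IsPoly.const c)))
  refine h1.congr (fun X v => ?_)
  constructor
  · intro hB
    by_cases h2 : n₀ ≤ v 0
    · exact Or.inl ⟨h2, (h _ h2).2 hB⟩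
    · refine Or.inr ⟨v 0, ?_, rfl⟩
      rw [Finset.mem_filter, Finset.mem_range]
      exact ⟨by omega, hB⟩
  · rintro (⟨h2, h3⟩ | ⟨c, h2, h3⟩)
    · exact (h _ h2).1 h3
    · rw [h3]
      exact (Finset.mem_filter.1 h2).2

/-- the digit sets, from the two cases -/
theorem digits_of
    (hsq : ∀ Θ : Finset (ℕ × ℕ × ℕ × ℕ),
      ∃ (L : FirstOrder.Language.{0, 0}) (_ : Finite (Σ l, L.Functions l))
        (_ : Finite (Σ l, L.Relations l)) (φ : L.Sentence) (n₀ : ℕ), ∀ n, n₀ ≤ n →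
        ((numModels φ n).testBit (n ^ 3) = true ↔ n ∈ squareSizes Θ))
    (htoda : ∀ A : Set ℕ, RudS ll A →
      ∃ (L : FirstOrder.Language.{0, 0}) (_ : Finite (Σ l, L.Functions l))
        (_ : Finite (Σ l, L.Relations l)) (φ : L.Sentence) (n₀ : ℕ), ∀ n, n₀ ≤ n →
        ((numModels φ n).testBit (n ^ 3) = true ↔ n ∈ A))
    (hSS : (∀ A : Set ℕ, IsSpectrum A → IsRudimentary A) →
      ∃ D : Set ℕ, Pool.Agent.Helper14.SS.SetArith ll D ∧ ¬ IsRudimentary D) :
    ∃ (L : FirstOrder.Language.{0, 0}) (_ : Finite (Σ l, L.Functions l))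
      (_ : Finite (Σ l, L.Relations l)) (φ : L.Sentence),
      ¬ IsRudimentary {n | 1 ≤ n ∧ (numModels φ n).testBit (n ^ 3) = true} := by
  have key : ∀ B : Set ℕ, ¬ IsRudimentary B →
      (∃ (L : FirstOrder.Language.{0, 0}) (_ : Finite (Σ l, L.Functions l))
        (_ : Finite (Σ l, L.Relations l)) (φ : L.Sentence) (n₀ : ℕ), ∀ n, n₀ ≤ n →
        ((numModels φ n).testBit (n ^ 3) = true ↔ n ∈ B)) →
      ∃ (L : FirstOrder.Language.{0, 0}) (_ : Finite (Σ l, L.Functions l))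
        (_ : Finite (Σ l, L.Relations l)) (φ : L.Sentence),
        ¬ IsRudimentary {n | 1 ≤ n ∧ (numModels φ n).testBit (n ^ 3) = true} := by
    rintro B hB ⟨L, hF, hR, φ, n₀, h⟩
    refine ⟨L, hF, hR, φ, fun hrud => hB ?_⟩
    refine isRud_finite_mod hrud (n₀ + 1) (fun n hn => ?_)
    rw [← h n (by omega)]
    constructor
    · rintro ⟨_, h1⟩; exact h1
    · intro h1; exact ⟨by omega, h1⟩
  by_cases hS : ∀ A : Set ℕ, IsSpectrum A → IsRudimentary A
  · obtain ⟨D, hD, hDr⟩ := hSS hS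
    exact key D hDr (htoda D (setArith_rudS ll D hD))
  · obtain ⟨Θ₀, hΘ⟩ := exists_universal_blocks
    refine key (squareSizes Θ₀) (fun hrud => hS (fun A hA => ?_)) (hsq Θ₀)
    obtain ⟨q, hq⟩ := hΘ A hA
    rw [hq]
    exact hrud.preimage q

end Pool.Agent.Helper38.DG
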